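import Mathlib

set_option autoImplicit false

/-!
Chains of decreasing relations on a small set: they cannot be strict at each step below the
successor cardinal.
-/

universe u v

open Cardinal Ordinal Order

namespace Pool.Agent.H40.SD

/-- A decreasing sequence of relations on a set of size at most `m` is not strictly decreasing at
each step below the successor of `m`. -/
theorem chn {P : Type v} (m : Cardinal.{u}) (hm : ℵ₀ ≤ m)
    (hP : Cardinal.lift.{u} #P ≤ Cardinal.lift.{v} m) (E : Ordinal.{u} → P → P → Prop)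
    (hE : ∀ k l a b, k ≤ l → l < (succ m).ord → E l a b → E k a b) :
    ¬ ∀ k : Ordinal.{u}, k < (succ m).ord → ∃ a b, E k a b ∧ ¬ E (k + 1) a b := by
  intro h
  have hs : IsSuccLimit (succ m).ord := isSuccLimit_ord (hm.trans (le_succ m))
  choose a b h1 h2 using h
  let f : Set.Iio (succ m).ord → P × P := fun k => (a k.1 k.2, b k.1 k.2)
  have key : ∀ k l : Set.Iio (succ m).ord, k.1 < l.1 → f k ≠ f l := by
    intro k l hkl hf
    have ha : a k.1 k.2 = a l.1 l.2 := congrArg Prod.fst hf
    have hb : b k.1 k.2 = b l.1 l.2 := congrArg Prod.snd hf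
    have h3 : E (k.1 + 1) (a l.1 l.2) (b l.1 l.2) :=
      hE (k.1 + 1) l.1 _ _ (add_one_le_of_lt hkl) l.2 (h1 l.1 l.2)
    rw [← ha, ← hb] at h3
    exact h2 k.1 k.2 h3
  have hinj : Function.Injective f := by
    intro k l hf
    rcases lt_trichotomy k.1 l.1 with hkl | hkl | hkl
    · exact absurd hf (key k l hkl)
    · exact Subtype.ext hkl
    · exact absurd hf.symm (key l k hkl)
  have hc := Cardinal.lift_mk_le_lift_mk_of_injective hinj
  rw [Ordinal.mk_Iio_ordinal, card_ord, mk_prod] at hc
  simp only [Cardinal.lift_lift, Cardinal.lift_mul, Cardinal.lift_id] at hc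
  have hP2 : Cardinal.lift.{u + 1} #P ≤ Cardinal.lift.{max (u + 1) v} m := by
    have := Cardinal.lift_le.{u + 1}.mpr hP
    simpa only [Cardinal.lift_lift] using this
  have hinf : ℵ₀ ≤ Cardinal.lift.{max (u + 1) v} m := by
    rw [Cardinal.aleph0_le_lift]; exact hm
  have h4 : Cardinal.lift.{u + 1} #P * Cardinal.lift.{u + 1} #P ≤
      Cardinal.lift.{max (u + 1) v} m := by
    calc Cardinal.lift.{u + 1} #P * Cardinal.lift.{u + 1} #P
        ≤ Cardinal.lift.{max (u + 1) v} m * Cardinal.lift.{max (u + 1) v} m :=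
          mul_le_mul' hP2 hP2
      _ = _ := Cardinal.mul_eq_self hinf
  have h5 : Cardinal.lift.{max (u + 1) v} (succ m) ≤ Cardinal.lift.{max (u + 1) v} m :=
    hc.trans h4
  rw [Cardinal.lift_le] at h5
  exact absurd h5 (not_le.mpr (lt_succ m))

/-- If at each step `k` below the successor of `m` two points which are not separated by the sets
`A j`, `j < k`, are separated by `A k`, then there are more than `m` points. -/
theorem chn_sets {X : Type v} (m : Cardinal.{u}) (hm : ℵ₀ ≤ m) (A : Ordinal.{u} → Set X)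
    (h : ∀ k : Ordinal.{u}, k < (succ m).ord →
      ∃ a b : X, (∀ j, j < k → (a ∈ A j ↔ b ∈ A j)) ∧ a ∈ A k ∧ b ∉ A k) :
    Cardinal.lift.{v} m < Cardinal.lift.{u} #X := by
  by_contra hcon
  refine chn m hm (not_lt.mp hcon) (fun k a b => ∀ j, j < k → (a ∈ A j ↔ b ∈ A j))
    (fun k l a b hkl _ hl j hj => hl j (hj.trans_le hkl)) (fun k hk => ?_)
  obtain ⟨a, b, h1, h2, h3⟩ := h k hk
  refine ⟨a, b, h1, fun h4 => ?_⟩
  exact h3 ((h4 k (lt_add_one k)).mp h2)

end Pool.Agent.H40.SD
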